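import Pool.Agent.H22.VM.Final

/-!
# Subcritical mean values of Vinogradov type with real exponents (helper31)

`RC` and `TB` of the module family `H22/VM` for an arbitrary starting exponent
`s₀ ∈ [K - 1, K)`. The proof is helper62's proof of `RC` with `K - 1` replaced by `s₀`.
-/

set_option autoImplicit false

open Finset Polynomial

namespace Pool.Agent.H31.E21

open Pool.Agent.H22.VM Pool.Agent.H62.VM

/-- RC with an arbitrary starting exponent `s₀ ∈ [K - 1, K)`. -/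
def RCs : Prop :=
  ∀ (k p : ℕ) (s₀ : ℝ), 3 ≤ k → p.Prime → k < p → 32 < p → KK k - 1 ≤ s₀ → s₀ < KK k →
    ∃ (s₁ C γ : ℝ), s₀ < s₁ ∧ 0 ≤ C ∧
    0 < γ ∧ γ < 1 ∧ ∀ (B : ℕ) (ι Ω : Type) [Fintype Ω] (w : Ω → ℝ)
    (R : Finset ι) (r : ι → ℤ) (F : ι → Ω → ℂ), 1 ≤ B → (∀ ω, 0 ≤ w ω) → 0 < ∑ ω, w ω →
    Inv k (p ^ (k * B)) w R r F → (∀ i ∈ R, ∀ ω, ‖F i ω‖ ≤ 1) → Set.InjOn r R →
    (∀ i ∈ R, 0 ≤ r i ∧ r i < (p : ℤ) ^ B) →
      ∃ Λ : ℝ → ℝ, (∀ s, 0 ≤ Λ s) ∧ (∃ K : ℝ, ∀ s, s₀ ≤ s → s ≤ s₁ → Λ s ≤ K) ∧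
        (∀ s, s₀ ≤ s → s ≤ s₁ →
          mo w F s R ≤ Real.exp (Λ s) * ((p : ℝ) ^ B) ^ s * ∑ ω, w ω) ∧
        ∀ s s' : ℝ, s₀ ≤ s → s < s' → s' ≤ s₁ →
          Λ s ≤ C * (1 + Λ s' / (s' - s)) ^ γ

theorem rcs (hCO : T_CO) (hF1 : T_F1) (hPR : T_PR) (hMB : T_MB) (hSB : T_SB) (hCL : T_CL)
    (hTN : T_TN) (hTU : T_TU) (hTA : T_TA) : RCs := by
  classical
  intro k p s₀ hk hp hkp hp32 hs₀a hs₀b
  have hp1 : 1 < p := hp.one_lt
  have hP1 : (1 : ℝ) < p := by exact_mod_cast hp1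
  have hlogp : 1 ≤ Real.log p := by
    rw [Real.le_log_iff_exp_le (by linarith)]
    have h1 : (32 : ℝ) < p := by exact_mod_cast hp32
    have h2 := Real.exp_one_lt_d9
    linarith
  have hk1 : (1 : ℝ) ≤ k := by
    have : 1 ≤ k := by omega
    exact_mod_cast this
  obtain ⟨σ, hσ1, hσ, hpar⟩ := hPR k s₀ (by omega) (Or.inr ⟨hk, hs₀a⟩) hs₀b
  obtain ⟨c', C', hc0, hc1, hC'0, hflat⟩ := flats hF1 (p := p) (k := k) hp hσ1 (fun l hl hlk => by
    obtain ⟨h1, h2⟩ := hσ l hl hlk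
    exact hTA l p hl hp (hlk.trans hkp) hp32 (σ l) h1 h2)
  obtain ⟨γ, hγ1, hγ0, hγ2, ρ, η, ε, hη, hε, hPar⟩ := hpar c' hc1
  set s₁ : ℝ := s₀ + ε with hs₁
  have hs₀5 : 5 ≤ s₀ := by
    have := KK_three hk
    linarith
  obtain ⟨C₁, hC₁, hcore⟩ :=
    hCO p k σ ρ γ η s₁ c' C' hp hkp hp32 (by omega) hc0 hγ1 hγ2.le hη hC'0 hflat
  have hs₁0 : 0 < s₁ := by linarith
  refine ⟨s₁, s₁ * (Real.log 3 + C₁ * (2 + 4 * s₁)), γ, by linarith, ?_, hγ0, hγ2, ?_⟩
  · have := Real.log_nonneg (by norm_num : (1 : ℝ) ≤ 3)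
    positivity
  intro B ι Ω _ w R r F hB hw hWpos hInv hF hinj hr
  set W : ℝ := ∑ ω, w ω with hW
  have hne : ∀ s : ℝ, 0 ≤ s → (Adm p B w R r F s).Nonempty := fun s hs =>
    ⟨_, adm_trivial hp1 hw hF hinj hr hs⟩
  have hatt : ∀ s : ℝ, 0 ≤ s → sInf (Adm p B w R r F s) ∈ Adm p B w R r F s := fun s hs =>
    adm_inf (hne s hs) hw
  refine ⟨fun s => sInf (Adm p B w R r F s), fun s => Real.sInf_nonneg fun L hL => hL.1,
    ⟨s₁ * B * Real.log p, ?_⟩, ?_, ?_⟩
  · intro s hs1 hs2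
    refine (csInf_le ⟨0, fun L hL => hL.1⟩ (adm_trivial hp1 hw hF hinj hr (by linarith))).trans ?_
    have h1 : 0 ≤ Real.log p := by linarith
    have h2 : (0 : ℝ) ≤ B := Nat.cast_nonneg B
    exact mul_le_mul_of_nonneg_right (mul_le_mul_of_nonneg_right hs2 h2) h1
  · intro s hs1 hs2
    have h1 := (hatt s (by linarith)).2 0 (Nat.zero_le B) 0
    rw [(hCL p hp1 ι R r).2.2.2.1 0, Nat.sub_zero] at h1
    exact h1
  · intro s s' hs1 hss' hs'2
    dsimp only
    have hs0 : 0 < s := by linarith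
    have hs'0 : 0 < s' := by linarith
    have hs2 : s ≤ s₁ := by linarith
    set Λ : ℝ := sInf (Adm p B w R r F s) with hΛ
    set L' : ℝ := sInf (Adm p B w R r F s') with hL'
    have hL'adm : L' ∈ Adm p B w R r F s' := hatt s' hs'0.le
    have hL'0 : 0 ≤ L' := hL'adm.1
    have hd : 0 < s' - s := by linarith
    set t : ℝ := L' / (s' - s) with ht
    have ht0 : 0 ≤ t := div_nonneg hL'0 hd.le
    have hlog3 : 0 ≤ Real.log 3 := Real.log_nonneg (by norm_num)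
    set C : ℝ := s₁ * (Real.log 3 + C₁ * (2 + 4 * s₁)) with hC
    have hC0 : 0 ≤ C := by positivity
    set Λ₀ : ℝ := C * (1 + t) ^ γ with hΛ₀
    have hΛ₀0 : 0 ≤ Λ₀ := by positivity
    by_contra hcon
    push Not at hcon
    -- a block exceeds
    have hex : ∃ a ≤ B, ∃ ξ : ℤ, Real.exp Λ₀ * ((p : ℝ) ^ (B - a)) ^ s * W <
        mo w F s (cls p R r a ξ) := by
      by_contra h1
      push Not at h1
      have h2 : Λ₀ ∈ Adm p B w R r F s := ⟨hΛ₀0, h1⟩
      have h3 : Λ ≤ Λ₀ := csInf_le ⟨0, fun L hL => hL.1⟩ h2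
      linarith
    have hfine : ∀ s : ℝ, 0 < s → ∀ ζ : ℤ, mo w F s (cls p R r B ζ) ≤ W := by
      intro s hs ζ
      unfold mo
      refine sum_le_sum fun ω _ => ?_
      have h1 := norm_bs_le hp1 hF hinj hr le_rfl ζ ω
      rw [Nat.sub_self, pow_zero] at h1
      calc w ω * ‖bs F (cls p R r B ζ) ω‖ ^ (2 * s) ≤ w ω * 1 := by
            apply mul_le_mul_of_nonneg_left _ (hw ω)
            exact Real.rpow_le_one (norm_nonneg _) h1 (by positivity)
        _ = w ω := mul_one _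
    obtain ⟨a₀, ξ₁, L, ha₀, hLΛ, heq₁, hb⟩ := hMB p B s W Λ₀ hp1 hWpos hΛ₀0 hs0 ι Ω w R r F hw
      (hfine s hs0) hex
    have hL0 : 0 ≤ L := hΛ₀0.trans hLΛ.le
    -- normalise the residue
    set ξ₀ : ℤ := ξ₁ % (p : ℤ) ^ a₀ with hξ₀
    have hpa : (0 : ℤ) < (p : ℤ) ^ a₀ := by
      have : (0 : ℤ) < p := by exact_mod_cast hp.pos
      positivity
    have hξ0 : 0 ≤ ξ₀ := Int.emod_nonneg _ hpa.ne'
    have hξ1 : ξ₀ < (p : ℤ) ^ a₀ := Int.emod_lt_of_pos _ hpa
    have hcls : cls p R r a₀ ξ₀ = cls p R r a₀ ξ₁ := by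
      apply (hCL p hp1 ι R r).2.2.1
      rw [hξ₀]
      exact (Int.dvd_sub_self_of_emod_eq rfl) |> fun h => by
        have := dvd_neg.2 h
        rwa [neg_sub] at this
    have heq : Real.exp L * ((p : ℝ) ^ (B - a₀)) ^ s * W ≤ mo w F s (cls p R r a₀ ξ₀) := by
      rw [hcls, heq₁]
    set B' : ℕ := B - a₀ with hB'
    have hB'1 : 1 ≤ B' := by omega
    have hk0 : 0 < k := by omega
    -- the stopping scale
    set u : ℝ := 4 * s * L' / (k * Real.log p * (s' - s)) with hu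
    have hu0 : 0 ≤ u := by positivity
    set b₂ : ℕ := (B' + k - 1) / k with hb₂
    set b₁ : ℕ := min b₂ ⌈u⌉₊ with hb₁
    have hb₂a : k * b₂ ≤ B' + k - 1 := Nat.mul_div_le _ _
    have hb₂b : B' ≤ k * b₂ := by
      have h1 := Nat.lt_mul_div_succ (B' + k - 1) hk0
      rw [← hb₂, Nat.mul_add, Nat.mul_one] at h1
      omega
    have hr' : ∀ i ∈ cls p R r a₀ ξ₀, 0 ≤ (r i - ξ₀) / (p : ℤ) ^ a₀ ∧
        (r i - ξ₀) / (p : ℤ) ^ a₀ < (p : ℤ) ^ B' := by
      intro i hi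
      obtain ⟨hiR, hdv⟩ := mem_filter.1 hi
      obtain ⟨h1, h2⟩ := hr i hiR
      obtain ⟨m, hm⟩ := hdv
      rw [hm, Int.mul_ediv_cancel_left _ hpa.ne']
      constructor
      · by_contra h3
        push Not at h3
        have h4 : m ≤ -1 := by omega
        have h5 : (p : ℤ) ^ a₀ * m ≤ (p : ℤ) ^ a₀ * (-1) := mul_le_mul_of_nonneg_left h4 hpa.le
        rw [← hm] at h5
        linarith
      · have h3 : (p : ℤ) ^ a₀ * m < (p : ℤ) ^ a₀ * (p : ℤ) ^ B' := by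
          rw [← pow_add, ← hm]
          have h4 : a₀ + B' = B := by omega
          rw [h4]
          linarith
        exact lt_of_mul_lt_mul_left h3 hpa.le
    have hinj' : Set.InjOn (fun i => (r i - ξ₀) / (p : ℤ) ^ a₀) (cls p R r a₀ ξ₀) := by
      intro i hi j hj hij
      obtain ⟨hiR, hdvi⟩ := mem_filter.1 (mem_coe.1 hi)
      obtain ⟨hjR, hdvj⟩ := mem_filter.1 (mem_coe.1 hj)
      dsimp only at hij
      have h1 := Int.ediv_mul_cancel hdvi
      have h2 := Int.ediv_mul_cancel hdvj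
      rw [hij, h2] at h1
      have h3 : r i = r j := by linarith
      exact hinj (mem_coe.2 hiR) (mem_coe.2 hjR) h3
    have hF' : ∀ i ∈ cls p R r a₀ ξ₀, ∀ ω, ‖F i ω‖ ≤ 1 := fun i hi ω =>
      hF i (mem_filter.1 hi).1 ω
    have hms' : ∀ a ≤ B', ∀ ξ : ℤ, mo w F s' (cls p (cls p R r a₀ ξ₀)
        (fun i => (r i - ξ₀) / (p : ℤ) ^ a₀) a ξ) ≤
          Real.exp L' * ((p : ℝ) ^ (B' - a)) ^ s' * W := by
      intro a ha ξ
      rw [(hCL p hp1 ι R r).1, hB', Nat.sub_sub]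
      exact hL'adm.2 (a₀ + a) (by omega) _
    have hfin := core_block hSB hCL hcore hp1 (xT := L / s - Real.log 3) (b₁ := b₁) (a₀ := a₀)
      (ξ₀ := ξ₀) (hPar s hs1 hs2) hs2 hWpos hL0 (by linarith) hw hInv ha₀.le hb (hfine s hs0) heq
      (fun b hb => by
        have h0 : b < b₂ := lt_of_lt_of_le hb (min_le_left _ _)
        have h1 : k * (b + 1) ≤ k * b₂ := Nat.mul_le_mul_left k h0
        rw [Nat.mul_add, Nat.mul_one] at h1
        omega)
      (fun i1 i2 i3 a b ha1 ha2 hb1 hb2 hb3 hab => by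
        by_cases hkb : B' ≤ k * b
        · have h1 := hTN p k B' a b s W L hp hkp (by omega) ha1 ha2 hb3 hkb hWpos.le (by linarith)
            ι Ω w _ _ F hw i1 i2 i3
          exact BL_mono hWpos.le (by linarith) h1
        · push Not at hkb
          have h1 : b < b₂ := by
            by_contra h2
            push Not at h2
            have h3 : k * b₂ ≤ k * b := Nat.mul_le_mul_left k h2
            omega
          have h2 : ⌈u⌉₊ ≤ b := by
            rcases min_le_iff.1 hb2 with h3 | h3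
            · omega
            · exact h3
          have h3 : u ≤ b := Nat.ceil_le.1 h2
          have hcond : L' / s' ≤ (k * b / 4 : ℝ) * Real.log p * (1 / s - 1 / s') := by
            have hkl : 0 < (k : ℝ) * Real.log p * (s' - s) := by positivity
            rw [hu, div_le_iff₀ hkl] at h3
            have h4 : 1 / s - 1 / s' = (s' - s) / (s * s') := by
              field_simp
            rw [h4, div_le_iff₀ hs'0]
            have h5 : (k * b / 4 : ℝ) * Real.log p * ((s' - s) / (s * s')) * s' =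
                (b * (k * Real.log p * (s' - s))) / (4 * s) := by
              field_simp
            rw [h5, le_div_iff₀ (by positivity)]
            linarith
          exact hTU p k B' a b s s' L L' hp hkp hk hB'1 ha1 hb1 hab hkb.le (by linarith) hss' hL0
            hL'0 hcond ι Ω w _ _ F hw i1 hF' hinj' hr' i2 hms')
    -- conclusion
    have hb₁u : (b₁ : ℝ) + 1 ≤ (2 + 4 * s₁) * (1 + t) := by
      have h1 : (b₁ : ℝ) ≤ ⌈u⌉₊ := by exact_mod_cast min_le_right _ _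
      have h2 : (⌈u⌉₊ : ℝ) < u + 1 := Nat.ceil_lt_add_one hu0
      have h3 : u ≤ 4 * s₁ * t := by
        have hkl : 1 ≤ (k : ℝ) * Real.log p := by nlinarith
        rw [hu, ht]
        calc 4 * s * L' / (k * Real.log p * (s' - s))
            = 4 * s * (L' / (s' - s)) / (k * Real.log p) := by
              field_simp
          _ ≤ 4 * s * (L' / (s' - s)) / 1 := by
              apply div_le_div_of_nonneg_left _ one_pos hkl
              positivity
          _ ≤ 4 * s₁ * (L' / (s' - s)) := by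
              rw [div_one]
              apply mul_le_mul_of_nonneg_right _ ht0
              linarith
      nlinarith
    have h1t : 1 ≤ (1 + t) ^ γ := Real.one_le_rpow (by linarith) hγ0.le
    have h2 : ((b₁ : ℝ) + 1) ^ γ ≤ (2 + 4 * s₁) * (1 + t) ^ γ := by
      calc ((b₁ : ℝ) + 1) ^ γ ≤ ((2 + 4 * s₁) * (1 + t)) ^ γ :=
            Real.rpow_le_rpow (by positivity) hb₁u hγ0.le
        _ = (2 + 4 * s₁) ^ γ * (1 + t) ^ γ := Real.mul_rpow (by positivity) (by positivity)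
        _ ≤ (2 + 4 * s₁) ^ (1 : ℝ) * (1 + t) ^ γ := by
            apply mul_le_mul_of_nonneg_right _ (by positivity)
            exact Real.rpow_le_rpow_of_exponent_le (by linarith) hγ2.le
        _ = (2 + 4 * s₁) * (1 + t) ^ γ := by rw [Real.rpow_one]
    have h3 : L / s ≤ Real.log 3 * (1 + t) ^ γ + C₁ * ((2 + 4 * s₁) * (1 + t) ^ γ) := by
      have h4 := mul_le_mul_of_nonneg_left h2 hC₁
      have h5 : Real.log 3 ≤ Real.log 3 * (1 + t) ^ γ := le_mul_of_one_le_right hlog3 h1t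
      linarith
    rw [div_le_iff₀ hs0] at h3
    have h4 : L ≤ Λ₀ := by
      rw [hΛ₀, hC]
      calc L ≤ (Real.log 3 * (1 + t) ^ γ + C₁ * ((2 + 4 * s₁) * (1 + t) ^ γ)) * s := h3
        _ ≤ (Real.log 3 * (1 + t) ^ γ + C₁ * ((2 + 4 * s₁) * (1 + t) ^ γ)) * s₁ :=
            mul_le_mul_of_nonneg_left hs2 (by positivity)
        _ = s₁ * (Real.log 3 + C₁ * (2 + 4 * s₁)) * (1 + t) ^ γ := by ring
    linarith

/-- No loss for bounded coefficients, for every real exponent in `[K - 1, K)`. -/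
theorem uni_of_rcs (hRC : RCs) (hCH : T_CH) : ∀ (k p : ℕ) (s₀ : ℝ), 3 ≤ k → p.Prime → k < p →
    32 < p → KK k - 1 ≤ s₀ → s₀ < KK k → ∃ C : ℝ, 0 ≤ C ∧ ∀ B : ℕ, Uni p k s₀ B C := by
  intro k p s₀ hk hp hkp hp32 hs₀a hs₀b
  obtain ⟨s₁, C, γ, hs₁, hC, hγ0, hγ1, hRC'⟩ := hRC k p s₀ hk hp hkp hp32 hs₀a hs₀b
  obtain ⟨C₁, hC₁⟩ := hCH s₀ s₁ C γ hs₁ hC hγ0 hγ1
  have hKK : 0 < s₀ := by
    have h0 : 0 < KK k - 1 := by
      unfold KK
      have : (3 : ℝ) ≤ k := by exact_mod_cast hk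
      nlinarith
    linarith
  have hp0 : (0 : ℝ) < p := by exact_mod_cast hp.pos
  refine ⟨Real.exp C₁ + 1, by positivity, fun B => ?_⟩
  intro ι Ω _ w R r F hw hInv hF hinj hr
  rcases (sum_nonneg fun ω _ => hw ω : 0 ≤ ∑ ω, w ω).eq_or_lt with h0 | h0
  · have hw0 : ∀ ω, w ω = 0 := fun ω =>
      (sum_eq_zero_iff_of_nonneg (fun ω _ => hw ω)).mp h0.symm ω (mem_univ ω)
    unfold mo
    simp [hw0]
  · rcases Nat.eq_zero_or_pos B with hB | hB
    · subst hB
      have hcard : R.card ≤ 1 := by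
        rw [card_le_one]
        intro i hi j hj
        have h1 := hr i hi
        have h2 := hr j hj
        simp only [pow_zero] at h1 h2
        exact hinj hi hj (by omega)
      have hbs : ∀ ω, ‖bs F R ω‖ ≤ 1 := by
        intro ω
        unfold bs
        refine (norm_sum_le _ _).trans ?_
        refine (sum_le_sum fun i hi => hF i hi ω).trans ?_
        rw [sum_const, nsmul_eq_mul, mul_one]
        exact_mod_cast hcard
      have h3 : mo w F s₀ R ≤ ∑ ω, w ω := by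
        unfold mo
        refine sum_le_sum fun ω _ => ?_
        have h4 : ‖bs F R ω‖ ^ (2 * s₀) ≤ 1 :=
          Real.rpow_le_one (norm_nonneg _) (hbs ω) (by linarith)
        nlinarith [hw ω]
      have h5 : 0 < Real.exp C₁ := Real.exp_pos C₁
      simp only [pow_zero, Real.one_rpow, mul_one]
      nlinarith
    · obtain ⟨Λ, hΛ0, hΛK, hΛ1, hΛ2⟩ := hRC' B ι Ω w R r F hB hw h0 hInv hF hinj hr
      have h6 := hC₁ Λ hΛ0 hΛK hΛ2
      refine (hΛ1 s₀ le_rfl hs₁.le).trans ?_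
      have h7 : Real.exp (Λ s₀) ≤ Real.exp C₁ + 1 := by
        have := Real.exp_le_exp.mpr h6
        linarith
      have h8 : 0 ≤ ((p : ℝ) ^ B) ^ s₀ := by positivity
      exact mul_le_mul_of_nonneg_right (mul_le_mul_of_nonneg_right h7 h8) h0.le

/-- No loss for bounded coefficients, for every real exponent in `[K - 1, K)`. -/
theorem uni_real : ∀ (k p : ℕ) (s₀ : ℝ), 3 ≤ k → p.Prime → k < p →
    32 < p → KK k - 1 ≤ s₀ → s₀ < KK k → ∃ C : ℝ, 0 ≤ C ∧ ∀ B : ℕ, Uni p k s₀ B C :=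
  uni_of_rcs (rcs t_CO t_F1 t_PR t_MB t_SB t_CL t_TN t_TU t_TA) t_CH

end Pool.Agent.H31.E21
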