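import Mathlib

/-!
# Orthogonality on `(Z/R)^k` (helper31)

`pt x m = ∑ x_j m^j`, `ch` the standard additive character of `Z/R`.
-/

set_option autoImplicit false

open Finset

namespace Pool.Agent.H31.E21

/-- the value at `m` of the polynomial without constant term with coefficients `x` -/
def pt {k R : ℕ} (x : Fin k → ZMod R) (m : ℤ) : ZMod R :=
  ∑ j, x j * (m : ZMod R) ^ (j.val + 1)

/-- the standard additive character, as a complex number -/
noncomputable def ch {R : ℕ} [NeZero R] (a : ZMod R) : ℂ := ZMod.stdAddChar a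

variable {k R : ℕ} [NeZero R]

theorem ch_zero : ch (0 : ZMod R) = 1 := by
  unfold ch
  exact AddChar.map_zero_eq_one _

theorem ch_add (a b : ZMod R) : ch (a + b) = ch a * ch b := by
  unfold ch
  exact AddChar.map_add_eq_mul _ a b

theorem ch_norm (a : ZMod R) : ‖ch a‖ = 1 := by
  unfold ch
  exact AddChar.norm_apply _ a

theorem ch_neg (a : ZMod R) : ch (-a) = (starRingEnd ℂ) (ch a) := by
  unfold ch
  exact AddChar.map_neg_eq_conj _ a

theorem ch_sub (a b : ZMod R) : ch (a - b) = ch a * (starRingEnd ℂ) (ch b) := by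
  rw [sub_eq_add_neg, ch_add, ch_neg]

theorem ch_sum {ι : Type} (s : Finset ι) (f : ι → ZMod R) :
    ch (∑ i ∈ s, f i) = ∏ i ∈ s, ch (f i) := by
  classical
  induction s using Finset.induction_on with
  | empty => simp [ch_zero]
  | insert a s ha ih => rw [sum_insert ha, prod_insert ha, ch_add, ih]

/-- orthogonality in one variable -/
theorem sum_ch_mul (c : ZMod R) : ∑ a : ZMod R, ch (a * c) = if c = 0 then (R : ℂ) else 0 := by
  unfold ch
  have h := AddChar.sum_mulShift (R := ZMod R) (R' := ℂ) c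
    (ZMod.isPrimitive_stdAddChar R)
  rw [ZMod.card] at h
  simpa using h

/-- orthogonality in `k` variables -/
theorem sum_ch_lin (c : Fin k → ZMod R) :
    ∑ x : Fin k → ZMod R, ch (∑ j, x j * c j) = if c = 0 then (R : ℂ) ^ k else 0 := by
  have h1 : ∀ x : Fin k → ZMod R, ch (∑ j, x j * c j) = ∏ j, ch (x j * c j) := fun x =>
    ch_sum _ _
  simp_rw [h1]
  rw [← Fintype.prod_sum (fun (j : Fin k) (a : ZMod R) => ch (a * c j))]
  simp_rw [sum_ch_mul]
  by_cases h : c = 0
  · subst h
    simp
  · rw [if_neg h]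
    obtain ⟨j, hj⟩ := Function.ne_iff.1 h
    refine prod_eq_zero (mem_univ j) ?_
    rw [if_neg]
    simpa using hj

omit [NeZero R] in
/-- a combination of values of `x` -/
theorem pt_comb {ι : Type} (s : Finset ι) (c : ι → ZMod R) (u : ι → ℤ) (x : Fin k → ZMod R) :
    ∑ i ∈ s, c i * pt x (u i) = ∑ j, x j * (∑ i ∈ s, c i * (u i : ZMod R) ^ (j.val + 1)) := by
  unfold pt
  simp_rw [mul_sum]
  rw [sum_comm]
  refine sum_congr rfl fun j _ => sum_congr rfl fun i _ => ?_
  ring

end Pool.Agent.H31.E21
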