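import Pool.Agent.H31.E21.Orth
import Pool.Agent.H22.VM.Final

/-!
# The variance lemma (helper34), in the finite model (helper31)

`WW x = ∑_{b mod Q} |∑_{z ≤ L} e(x(Q z - b))|²` is close to its mean `Q L`.
-/

set_option autoImplicit false

open Finset

namespace Pool.Agent.H31.E21

section
variable {k R : ℕ} [NeZero R]

/-- the class sum -/
noncomputable def cs (Q L : ℕ) (x : Fin k → ZMod R) (b : ℕ) : ℂ :=
  ∑ z ∈ Icc 1 L, ch (pt x ((Q : ℤ) * (z : ℤ) - (b : ℤ)))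

/-- the square function of the classes modulo `Q` -/
noncomputable def WW (Q L : ℕ) (x : Fin k → ZMod R) : ℝ :=
  ∑ b ∈ range Q, ‖cs Q L x b‖ ^ 2

theorem WW_nonneg (Q L : ℕ) (x : Fin k → ZMod R) : 0 ≤ WW Q L x :=
  sum_nonneg fun _ _ => by positivity

/-- the off-diagonal pairs -/
def offp (Q L : ℕ) : Finset (ℕ × (ℕ × ℕ)) :=
  ((range Q) ×ˢ ((Icc 1 L) ×ˢ (Icc 1 L))).filter (fun t => t.2.1 ≠ t.2.2)

def lf (Q : ℕ) (t : ℕ × (ℕ × ℕ)) : ℤ := (Q : ℤ) * (t.2.1 : ℤ) - (t.1 : ℤ)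
def rt (Q : ℕ) (t : ℕ × (ℕ × ℕ)) : ℤ := (Q : ℤ) * (t.2.2 : ℤ) - (t.1 : ℤ)

theorem card_offp (Q L : ℕ) : (offp Q L).card ≤ Q * L * L := by
  unfold offp
  refine (card_filter_le _ _).trans ?_
  simp [card_product, mul_assoc]

theorem norm_sq_cs (Q L : ℕ) (x : Fin k → ZMod R) (b : ℕ) :
    ((‖cs Q L x b‖ ^ 2 : ℝ) : ℂ) = ∑ z ∈ Icc 1 L, ∑ z' ∈ Icc 1 L,
      ch (pt x ((Q : ℤ) * (z : ℤ) - (b : ℤ)) - pt x ((Q : ℤ) * (z' : ℤ) - (b : ℤ))) := by
  have h : ((‖cs Q L x b‖ ^ 2 : ℝ) : ℂ) = cs Q L x b * (starRingEnd ℂ) (cs Q L x b) := by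
    rw [Complex.mul_conj, Complex.normSq_eq_norm_sq]
  rw [h]
  unfold cs
  rw [map_sum, sum_mul_sum]
  refine sum_congr rfl fun z _ => sum_congr rfl fun z' _ => ?_
  rw [ch_sub]

theorem WW_sub (Q L : ℕ) (x : Fin k → ZMod R) :
    ((WW Q L x - Q * L : ℝ) : ℂ) = ∑ t ∈ offp Q L, ch (pt x (lf Q t) - pt x (rt Q t)) := by
  have h1 : ((WW Q L x : ℝ) : ℂ) = ∑ t ∈ (range Q) ×ˢ ((Icc 1 L) ×ˢ (Icc 1 L)),
      ch (pt x (lf Q t) - pt x (rt Q t)) := by
    unfold WW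
    rw [Complex.ofReal_sum, sum_product]
    refine sum_congr rfl fun b _ => ?_
    rw [norm_sq_cs, sum_product]
    rfl
  have h2 : ∑ t ∈ ((range Q) ×ˢ ((Icc 1 L) ×ˢ (Icc 1 L))).filter (fun t => ¬ t.2.1 ≠ t.2.2),
      ch (pt x (lf Q t) - pt x (rt Q t)) = (Q : ℂ) * L := by
    have h3 : ∀ t ∈ ((range Q) ×ˢ ((Icc 1 L) ×ˢ (Icc 1 L))).filter (fun t => ¬ t.2.1 ≠ t.2.2),
        ch (pt x (lf Q t) - pt x (rt Q t)) = 1 := by
      intro t ht
      have h4 := (mem_filter.1 ht).2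
      push Not at h4
      have h5 : lf Q t = rt Q t := by
        unfold lf rt
        rw [h4]
      rw [h5, sub_self, ch_zero]
    rw [sum_congr rfl h3, sum_const, nsmul_eq_mul, mul_one]
    have h6 : (((range Q) ×ˢ ((Icc 1 L) ×ˢ (Icc 1 L))).filter (fun t => ¬ t.2.1 ≠ t.2.2)).card
        = Q * L := by
      have h7 : ((range Q) ×ˢ ((Icc 1 L) ×ˢ (Icc 1 L))).filter (fun t => ¬ t.2.1 ≠ t.2.2) =
          ((range Q) ×ˢ (Icc 1 L)).image (fun u => (u.1, (u.2, u.2))) := by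
        ext ⟨b, z, z'⟩
        simp only [mem_filter, mem_product, mem_range, mem_Icc, mem_image, Prod.mk.injEq,
          Prod.exists]
        constructor
        · rintro ⟨⟨h8, h9, h10⟩, h11⟩
          push Not at h11
          exact ⟨b, z, ⟨h8, h9⟩, rfl, rfl, h11⟩
        · rintro ⟨b', z'', ⟨h8, h9⟩, rfl, rfl, rfl⟩
          exact ⟨⟨h8, h9, h9⟩, by simp⟩
      rw [h7, card_image_of_injective]
      · simp
      · rintro ⟨b, z⟩ ⟨b', z'⟩ h
        simp only [Prod.mk.injEq] at h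
        exact Prod.ext h.1 h.2.1
    rw [h6]
    push_cast
    ring
  have h8 := sum_filter_add_sum_filter_not ((range Q) ×ˢ ((Icc 1 L) ×ˢ (Icc 1 L)))
    (fun t => t.2.1 ≠ t.2.2) (fun t => ch (pt x (lf Q t) - pt x (rt Q t)))
  rw [h2, ← h1] at h8
  rw [Complex.ofReal_sub, ← h8]
  unfold offp
  push_cast
  ring

theorem bound_lf {Q L : ℕ} {t : ℕ × (ℕ × ℕ)} (ht : t ∈ offp Q L) :
    (1 ≤ lf Q t ∧ lf Q t ≤ Q * L) ∧ (1 ≤ rt Q t ∧ rt Q t ≤ Q * L) := by
  obtain ⟨h1, _⟩ := mem_filter.1 ht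
  simp only [mem_product, mem_range, mem_Icc] at h1
  obtain ⟨hb, ⟨h2, h3⟩, h4, h5⟩ := h1
  have e1 : (t.1 : ℤ) < Q := by exact_mod_cast hb
  have e1' : (0 : ℤ) ≤ t.1 := by positivity
  have e2 : (1 : ℤ) ≤ t.2.1 := by exact_mod_cast h2
  have e3 : (t.2.1 : ℤ) ≤ L := by exact_mod_cast h3
  have e4 : (1 : ℤ) ≤ t.2.2 := by exact_mod_cast h4
  have e5 : (t.2.2 : ℤ) ≤ L := by exact_mod_cast h5
  unfold lf rt
  refine ⟨⟨?_, ?_⟩, ?_, ?_⟩ <;> nlinarith

theorem eq_of_zmod_eq {R : ℕ} {a b : ℤ} (h : (a : ZMod R) = b) (h1 : |a - b| < R) : a = b := by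
  have h2 : ((a - b : ℤ) : ZMod R) = 0 := by
    push_cast
    rw [h, sub_self]
  have h3 : (R : ℤ) ∣ a - b := (ZMod.intCast_zmod_eq_zero_iff_dvd _ _).1 h2
  have h4 := Int.eq_zero_of_abs_lt_dvd h3 h1
  linarith

/-- the pair is determined by its residue, difference and difference of squares -/
theorem pair_eq {Q L : ℕ} (hR : 2 * (Q * L) ^ 2 < R) {t t' : ℕ × (ℕ × ℕ)} (ht : t ∈ offp Q L)
    (ht' : t' ∈ offp Q L)
    (h1 : (((lf Q t - rt Q t : ℤ)) : ZMod R) = ((lf Q t' - rt Q t' : ℤ) : ZMod R))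
    (h2 : (((lf Q t ^ 2 - rt Q t ^ 2 : ℤ)) : ZMod R) = ((lf Q t' ^ 2 - rt Q t' ^ 2 : ℤ) : ZMod R)) :
    t = t' := by
  obtain ⟨⟨a1, a2⟩, a3, a4⟩ := bound_lf ht
  obtain ⟨⟨b1, b2⟩, b3, b4⟩ := bound_lf ht'
  have hR' : 2 * ((Q : ℤ) * L) ^ 2 < R := by exact_mod_cast hR
  set N : ℤ := (Q : ℤ) * L with hN
  have hN1 : 1 ≤ N := by linarith
  have e1 : lf Q t - rt Q t = lf Q t' - rt Q t' := by
    apply eq_of_zmod_eq h1
    rw [abs_lt]
    constructor <;> nlinarith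
  have e2 : lf Q t ^ 2 - rt Q t ^ 2 = lf Q t' ^ 2 - rt Q t' ^ 2 := by
    apply eq_of_zmod_eq h2
    have c1 : lf Q t ^ 2 ≤ N ^ 2 := by nlinarith
    have c2 : rt Q t ^ 2 ≤ N ^ 2 := by nlinarith
    have c3 : lf Q t' ^ 2 ≤ N ^ 2 := by nlinarith
    have c4 : rt Q t' ^ 2 ≤ N ^ 2 := by nlinarith
    have c5 : 0 ≤ lf Q t ^ 2 := sq_nonneg _
    have c6 : 0 ≤ rt Q t ^ 2 := sq_nonneg _
    have c7 : 0 ≤ lf Q t' ^ 2 := sq_nonneg _
    have c8 : 0 ≤ rt Q t' ^ 2 := sq_nonneg _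
    rw [abs_lt]
    constructor <;> nlinarith
  have hne : lf Q t - rt Q t ≠ 0 := by
    intro h0
    have h3 := (mem_filter.1 ht).2
    unfold lf rt at h0
    have h4 : (Q : ℤ) * ((t.2.1 : ℤ) - t.2.2) = 0 := by linarith
    rcases mul_eq_zero.1 h4 with h5 | h5
    · have : (Q : ℤ) * L = 0 := by rw [h5]; ring
      omega
    · apply h3
      omega
  have e3 : lf Q t + rt Q t = lf Q t' + rt Q t' := by
    have h3 : (lf Q t - rt Q t) * (lf Q t + rt Q t) = (lf Q t - rt Q t) * (lf Q t' + rt Q t') := by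
      nth_rewrite 2 [e1]
      linarith [e2]
    exact mul_left_cancel₀ hne h3
  have e4 : lf Q t = lf Q t' := by linarith
  have e5 : rt Q t = rt Q t' := by linarith
  obtain ⟨h6, _⟩ := mem_filter.1 ht
  obtain ⟨h7, _⟩ := mem_filter.1 ht'
  simp only [mem_product, mem_range, mem_Icc] at h6 h7
  -- the residue determines `b`
  have f1 : (t.1 : ℤ) < Q := by exact_mod_cast h6.1
  have f2 : (t'.1 : ℤ) < Q := by exact_mod_cast h7.1
  unfold lf at e4
  unfold rt at e5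
  have f3 : (Q : ℤ) * ((t.2.1 : ℤ) - t'.2.1) = t.1 - t'.1 := by linarith
  have f4 : (t.2.1 : ℤ) - t'.2.1 = 0 := by
    by_contra h8
    rcases lt_or_gt_of_ne h8 with h9 | h9
    · nlinarith
    · nlinarith
  have f5 : (t.1 : ℤ) = t'.1 := by
    rw [f4, mul_zero] at f3
    linarith
  have f6 : (Q : ℤ) * ((t.2.2 : ℤ) - t'.2.2) = 0 := by linarith
  have f7 : (t.2.2 : ℤ) - t'.2.2 = 0 := by
    rcases mul_eq_zero.1 f6 with h8 | h8
    · have : (Q : ℤ) * L = 0 := by rw [h8]; ring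
      omega
    · exact h8
  have g1 : t.1 = t'.1 := by exact_mod_cast f5
  have g2 : t.2.1 = t'.2.1 := by omega
  have g3 : t.2.2 = t'.2.2 := by omega
  exact Prod.ext g1 (Prod.ext g2 g3)


/-- orthogonality for the square of an exponential sum with arbitrary frequencies -/
theorem sum_norm_sq {ι : Type} [DecidableEq ι] (s : Finset ι) (v : ι → Fin k → ZMod R) :
    ∑ x : Fin k → ZMod R, ‖∑ t ∈ s, ch (∑ j, x j * v t j)‖ ^ 2 =
      (R : ℝ) ^ k * (((s ×ˢ s).filter (fun u => v u.1 = v u.2)).card : ℝ) := by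
  have h1 : ∀ x : Fin k → ZMod R, ((‖∑ t ∈ s, ch (∑ j, x j * v t j)‖ ^ 2 : ℝ) : ℂ) =
      ∑ u ∈ s ×ˢ s, ch (∑ j, x j * (v u.1 j - v u.2 j)) := by
    intro x
    have h : ((‖∑ t ∈ s, ch (∑ j, x j * v t j)‖ ^ 2 : ℝ) : ℂ) =
        (∑ t ∈ s, ch (∑ j, x j * v t j)) *
          (starRingEnd ℂ) (∑ t ∈ s, ch (∑ j, x j * v t j)) := by
      rw [Complex.mul_conj, Complex.normSq_eq_norm_sq]
    rw [h, map_sum, sum_mul_sum, sum_product]
    refine sum_congr rfl fun t _ => sum_congr rfl fun t' _ => ?_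
    rw [← ch_sub, ← sum_sub_distrib]
    congr 1
    refine sum_congr rfl fun j _ => ?_
    ring
  have h2 : ((∑ x : Fin k → ZMod R, ‖∑ t ∈ s, ch (∑ j, x j * v t j)‖ ^ 2 : ℝ) : ℂ) =
      (((R : ℝ) ^ k * (((s ×ˢ s).filter (fun u => v u.1 = v u.2)).card : ℝ) : ℝ) : ℂ) := by
    rw [Complex.ofReal_sum, sum_congr rfl (fun x _ => h1 x), sum_comm]
    have h3 : ∀ u : ι × ι, ∑ x : Fin k → ZMod R, ch (∑ j, x j * (v u.1 j - v u.2 j)) =
        if v u.1 = v u.2 then (R : ℂ) ^ k else 0 := by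
      intro u
      have h4 := sum_ch_lin (R := R) (k := k) (fun j => v u.1 j - v u.2 j)
      rw [h4]
      have h5 : ((fun j => v u.1 j - v u.2 j) = (0 : Fin k → ZMod R)) ↔ v u.1 = v u.2 := by
        constructor
        · intro h6
          funext j
          have h7 := congrFun h6 j
          simpa [sub_eq_zero] using h7
        · intro h6
          funext j
          simp [h6]
      simp only [h5]
    rw [sum_congr rfl (fun u _ => h3 u), ← sum_filter, sum_const, nsmul_eq_mul]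
    push_cast
    ring
  exact_mod_cast h2

/-- the variance of the square function -/
theorem variance {Q L : ℕ} (hk : 2 ≤ k) (hR : 2 * (Q * L) ^ 2 < R) :
    ∑ x : Fin k → ZMod R, (WW Q L x - Q * L) ^ 2 ≤ (R : ℝ) ^ k * (Q * L * L) := by
  have h1 : ∀ x : Fin k → ZMod R, (WW Q L x - Q * L) ^ 2 =
      ‖∑ t ∈ offp Q L, ch (∑ j, x j *
        ((lf Q t : ZMod R) ^ (j.val + 1) - (rt Q t : ZMod R) ^ (j.val + 1)))‖ ^ 2 := by
    intro x
    have h2 := WW_sub Q L x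
    have h3 : ∀ t ∈ offp Q L, ch (pt x (lf Q t) - pt x (rt Q t)) = ch (∑ j, x j *
        ((lf Q t : ZMod R) ^ (j.val + 1) - (rt Q t : ZMod R) ^ (j.val + 1))) := by
      intro t _
      congr 1
      unfold pt
      rw [← sum_sub_distrib]
      refine sum_congr rfl fun j _ => ?_
      ring
    rw [sum_congr rfl h3] at h2
    rw [← h2, Complex.norm_real, Real.norm_eq_abs, sq_abs]
  rw [sum_congr rfl (fun x _ => h1 x), sum_norm_sq]
  refine mul_le_mul_of_nonneg_left ?_ (by positivity)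
  have h4 : (((offp Q L) ×ˢ (offp Q L)).filter (fun u =>
      (fun j : Fin k => ((lf Q u.1 : ZMod R) ^ (j.val + 1) - (rt Q u.1 : ZMod R) ^ (j.val + 1))) =
      (fun j : Fin k => ((lf Q u.2 : ZMod R) ^ (j.val + 1) -
        (rt Q u.2 : ZMod R) ^ (j.val + 1))))).card ≤ (offp Q L).card := by
    refine card_le_card_of_injOn (fun u => u.1) ?_ ?_
    · intro u hu
      have h5 := (mem_filter.1 hu).1
      exact (mem_product.1 h5).1
    · intro u hu u' hu' h5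
      have key : ∀ w ∈ (((offp Q L) ×ˢ (offp Q L)).filter (fun u =>
          (fun j : Fin k =>
            ((lf Q u.1 : ZMod R) ^ (j.val + 1) - (rt Q u.1 : ZMod R) ^ (j.val + 1))) =
          (fun j : Fin k => ((lf Q u.2 : ZMod R) ^ (j.val + 1) -
            (rt Q u.2 : ZMod R) ^ (j.val + 1))))), w.1 = w.2 := by
        intro w hw
        obtain ⟨h6, h7⟩ := mem_filter.1 hw
        obtain ⟨h8, h9⟩ := mem_product.1 h6
        have h10 := congrFun h7 ⟨0, by omega⟩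
        have h11 := congrFun h7 ⟨1, by omega⟩
        simp only [zero_add, pow_one] at h10
        norm_num at h11
        refine pair_eq hR h8 h9 ?_ ?_
        · push_cast
          exact h10
        · push_cast
          exact h11
      have k1 := key u hu
      have k2 := key u' hu'
      exact Prod.ext h5 (by rw [← k1, ← k2]; exact h5)
  calc (((((offp Q L) ×ˢ (offp Q L)).filter (fun u =>
      (fun j : Fin k => ((lf Q u.1 : ZMod R) ^ (j.val + 1) - (rt Q u.1 : ZMod R) ^ (j.val + 1))) =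
      (fun j : Fin k => ((lf Q u.2 : ZMod R) ^ (j.val + 1) -
        (rt Q u.2 : ZMod R) ^ (j.val + 1))))).card : ℕ) : ℝ) ≤ ((offp Q L).card : ℝ) := by
        exact_mod_cast h4
    _ ≤ ((Q * L * L : ℕ) : ℝ) := by exact_mod_cast card_offp Q L
    _ = Q * L * L := by push_cast; ring

/-- THE VARIANCE LEMMA (Chebyshev): the square function of the classes modulo `Q` is rarely
larger than `T` times its mean -/
theorem card_WW_large {Q L : ℕ} (hk : 2 ≤ k) (hQ : 1 ≤ Q) (hL : 1 ≤ L)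
    (hR : 2 * (Q * L) ^ 2 < R) {T : ℝ} (hT : 2 ≤ T) :
    ((univ.filter (fun x : Fin k → ZMod R => T * (Q * L) ≤ WW Q L x)).card : ℝ) ≤
      4 * (R : ℝ) ^ k / (T ^ 2 * Q) := by
  have hQ' : (1 : ℝ) ≤ Q := by exact_mod_cast hQ
  have hL' : (1 : ℝ) ≤ L := by exact_mod_cast hL
  have h1 := variance (R := R) (k := k) hk hR
  set E := univ.filter (fun x : Fin k → ZMod R => T * (Q * L) ≤ WW Q L x) with hE
  have h2 : (E.card : ℝ) * (T * (Q * L) / 2) ^ 2 ≤
      ∑ x : Fin k → ZMod R, (WW Q L x - Q * L) ^ 2 := by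
    calc (E.card : ℝ) * (T * (Q * L) / 2) ^ 2 = ∑ x ∈ E, (T * (Q * L) / 2) ^ 2 := by
          rw [sum_const, nsmul_eq_mul]
      _ ≤ ∑ x ∈ E, (WW Q L x - Q * L) ^ 2 := by
          refine sum_le_sum fun x hx => ?_
          have h3 := (mem_filter.1 hx).2
          have h4 : (0 : ℝ) < Q * L := by positivity
          apply pow_le_pow_left₀ (by positivity)
          nlinarith
      _ ≤ _ := sum_le_sum_of_subset_of_nonneg (subset_univ _) fun _ _ _ => sq_nonneg _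
  rw [le_div_iff₀ (by positivity)]
  have h5 : (E.card : ℝ) * (T * (Q * L) / 2) ^ 2 ≤ (R : ℝ) ^ k * (Q * L * L) := h2.trans h1
  have h6 : (E.card : ℝ) * (T ^ 2 * Q) * (Q * L * L) ≤ 4 * (R : ℝ) ^ k * (Q * L * L) := by
    nlinarith [h5]
  exact le_of_mul_le_mul_right h6 (by positivity)

end

end Pool.Agent.H31.E21
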